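import Pool.Agent.H21.Cant1

set_option autoImplicit false

namespace Pool.Agent.Results.MP_54f706_an.Infinite

/-- The unit circle meets `C × C` (`C` the middle-third Cantor set) in infinitely many points. -/
theorem result :
    {p : ℝ × ℝ | p.1 ^ 2 + p.2 ^ 2 = 1 ∧ p.1 ∈ cantorSet ∧ p.2 ∈ cantorSet}.Infinite := by
  choose x hx y hy h1 h2 h3 using Pool.Agent.H21.Cant.pts
  have ha : StrictAnti y := strictAnti_nat_of_succ_lt fun k => by
    have h0 : (0 : ℝ) < (1 / 3) ^ (k + 1) := by positivity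
    have e : (1 / 3 : ℝ) ^ (k + 1 + 1) = (1 / 3) ^ (k + 1) * (1 / 3) := pow_succ _ _
    linarith [h2 k, h3 (k + 1)]
  exact Set.infinite_of_injective_forall_mem (f := fun k => (x k, y k))
    (fun i j h => ha.injective (congrArg Prod.snd h)) fun k => ⟨h1 k, hx k, hy k⟩

end Pool.Agent.Results.MP_54f706_an.Infinite
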